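import Pool.Agent.H699.MU.Defs

/-!
Basic properties of the laws and of the law of the weights, unbounded case (LPU, TLU, UNU of the
project MU of helper699; some lemmas are copied from the bounded case).
-/

set_option autoImplicit false

open MeasureTheory Finset
open scoped Classical Topology

namespace Pool.Agent.H675.MU.LPU

open Pool.Agent.H699.MU Pool.Agent.H699.MX

theorem le_pmax {ι : Type*} (s : Finset ι) (x : ι → ℝ) {i : ι} (hi : i ∈ s) : x i ≤ pmax s x :=
  (Finset.le_fold_max (x i)).2 (Or.inr ⟨i, hi, le_rfl⟩)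

theorem pmax_nonneg {ι : Type*} (s : Finset ι) (x : ι → ℝ) : 0 ≤ pmax s x :=
  (Finset.le_fold_max (0 : ℝ)).2 (Or.inl le_rfl)

theorem measurable_pmax {ι Ω : Type*} [MeasurableSpace Ω] (s : Finset ι) (g : ι → Ω → ℝ)
    (hg : ∀ i, Measurable (g i)) : Measurable fun p => pmax s fun i => g i p := by
  unfold pmax
  induction s using Finset.induction_on with
  | empty =>
    simp only [Finset.fold_empty]
    exact measurable_const
  | insert i s hi ih =>
    simp only [Finset.fold_insert hi]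
    exact (hg i).max ih

theorem measurable_step (k : ℕ) :
    Measurable fun p : Fin k → ℝ × ℝ => pmax univ fun i => (p i).1 - (p i).2 :=
  measurable_pmax univ (fun i (p : Fin k → ℝ × ℝ) => (p i).1 - (p i).2) fun i =>
    ((measurable_pi_apply i).fst).sub ((measurable_pi_apply i).snd)

theorem step_prob {μ : Measure ℝ} {k : ℕ} {ν : Fin k → Measure ℝ} [IsProbabilityMeasure μ]
    (hν : ∀ i, IsProbabilityMeasure (ν i)) : IsProbabilityMeasure (stepLaw μ k ν) := by
  unfold stepLaw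
  exact Measure.isProbabilityMeasure_map (measurable_step k).aemeasurable

theorem step_nn (μ : Measure ℝ) (k : ℕ) (ν : Fin k → Measure ℝ) :
    stepLaw μ k ν (Set.Iio 0) = 0 := by
  unfold stepLaw
  rw [Measure.map_apply (measurable_step k) measurableSet_Iio]
  refine measure_mono_null (fun p hp => ?_) measure_empty
  exact absurd (pmax_nonneg univ fun i => (p i).1 - (p i).2) (not_le.2 hp)

theorem step_leaf (μ : Measure ℝ) (ν : Fin 0 → Measure ℝ) : stepLaw μ 0 ν (Set.Ioi 0) = 0 := by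
  unfold stepLaw
  rw [Measure.map_apply (measurable_step 0) measurableSet_Ioi]
  refine measure_mono_null (fun p hp => ?_) measure_empty
  have h : (0 : ℝ) < pmax univ fun i : Fin 0 => (p i).1 - (p i).2 := hp
  unfold pmax at h
  rw [Finset.univ_eq_empty, Finset.fold_empty] at h
  exact absurd h (lt_irrefl _)

theorem step_lo {μ : Measure ℝ} {k : ℕ} {ν : Fin k → Measure ℝ} [IsProbabilityMeasure μ]
    (hν : ∀ i, IsProbabilityMeasure (ν i)) {a : ℝ} (ha : μ (Set.Iio a) = 0) {i : Fin k}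
    (hi : ν i (Set.Ioi 0) = 0) : stepLaw μ k ν (Set.Iio a) = 0 := by
  have h1 : ∀ᵐ q ∂(μ.prod (ν i)), a ≤ q.1 - q.2 := by
    have h2 : ∀ᵐ w ∂μ, a ≤ w := by
      rw [ae_iff]
      refine measure_mono_null (fun w hw => ?_) ha
      exact not_le.1 hw
    have h3 : ∀ᵐ y ∂(ν i), y ≤ 0 := by
      rw [ae_iff]
      refine measure_mono_null (fun w hw => ?_) hi
      exact not_le.1 hw
    have h4 : ∀ᵐ q ∂(μ.prod (ν i)), a ≤ q.1 := Measure.quasiMeasurePreserving_fst.ae h2
    have h5 : ∀ᵐ q ∂(μ.prod (ν i)), q.2 ≤ 0 := Measure.quasiMeasurePreserving_snd.ae h3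
    filter_upwards [h4, h5] with q h6 h7
    linarith
  have h2 : ∀ᵐ p ∂(Measure.pi fun i => μ.prod (ν i)), a ≤ (p i).1 - (p i).2 :=
    (measurePreserving_eval (fun i => μ.prod (ν i)) i).quasiMeasurePreserving.ae h1
  unfold stepLaw
  rw [Measure.map_apply (measurable_step k) measurableSet_Iio]
  refine measure_mono_null (fun p hp => ?_) (ae_iff.1 h2)
  intro h3
  have h4 : (p i).1 - (p i).2 ≤ pmax univ fun i => (p i).1 - (p i).2 :=
    le_pmax univ (fun i => (p i).1 - (p i).2) (Finset.mem_univ i)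
  exact absurd hp (not_lt.2 (h3.trans h4))

theorem step_tail {μ : Measure ℝ} {k : ℕ} {ν : Fin k → Measure ℝ} [IsProbabilityMeasure μ]
    (hν : ∀ i, IsProbabilityMeasure (ν i)) (hn : ∀ i, ν i (Set.Iio 0) = 0) {L : ℝ}
    (hL : 0 ≤ L) : (stepLaw μ k ν).real (Set.Ioi L) ≤ k * μ.real (Set.Ioi L) := by
  obtain ⟨P, hPdef⟩ : ∃ P : Measure (Fin k → ℝ × ℝ), P = Measure.pi fun i => μ.prod (ν i) :=
    ⟨_, rfl⟩
  have hPP : IsProbabilityMeasure P := by
    rw [hPdef]
    infer_instance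
  have hA : MeasurableSet {q : ℝ × ℝ | L < q.1 - q.2} :=
    (measurable_fst.sub measurable_snd) measurableSet_Ioi
  have h1 : (fun p : Fin k → ℝ × ℝ => pmax univ fun i => (p i).1 - (p i).2) ⁻¹' Set.Ioi L ⊆
      ⋃ i : Fin k, {p : Fin k → ℝ × ℝ | L < (p i).1 - (p i).2} := by
    intro p hp
    have h2 : L < pmax univ fun i => (p i).1 - (p i).2 := hp
    unfold pmax at h2
    rw [Finset.lt_fold_max] at h2
    rcases h2 with h2 | ⟨i, hi, h2⟩
    · exact absurd h2 (not_lt.2 hL)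
    · rw [Set.mem_iUnion]
      exact ⟨i, h2⟩
  have h4 : ∀ i : Fin k, P.real {p : Fin k → ℝ × ℝ | L < (p i).1 - (p i).2} ≤
      μ.real (Set.Ioi L) := by
    intro i
    have h5 : MeasurePreserving (Function.eval i) P (μ.prod (ν i)) := by
      rw [hPdef]
      exact measurePreserving_eval (fun i => μ.prod (ν i)) i
    have h6 : P {p : Fin k → ℝ × ℝ | L < (p i).1 - (p i).2} =
        (μ.prod (ν i)) {q : ℝ × ℝ | L < q.1 - q.2} := by
      rw [← h5.measure_preimage hA.nullMeasurableSet]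
      rfl
    have h7 : (μ.prod (ν i)) {q : ℝ × ℝ | L < q.1 - q.2} ≤ μ (Set.Ioi L) := by
      have h8 : {q : ℝ × ℝ | L < q.1 - q.2} ⊆
          (Set.Ioi L ×ˢ Set.univ) ∪ (Set.univ ×ˢ Set.Iio 0) := by
        intro q hq
        have hq' : L < q.1 - q.2 := hq
        by_cases h9 : q.2 < 0
        · exact Or.inr ⟨Set.mem_univ _, h9⟩
        · refine Or.inl ⟨?_, Set.mem_univ _⟩
          rw [not_lt] at h9
          exact lt_of_lt_of_le hq' (by linarith)
      refine (measure_mono h8).trans ((measure_union_le _ _).trans ?_)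
      rw [Measure.prod_prod, Measure.prod_prod, hn i, measure_univ, measure_univ, mul_one,
        mul_zero, add_zero]
    exact ENNReal.toReal_mono (measure_ne_top _ _) (h6.le.trans h7)
  unfold stepLaw
  rw [map_measureReal_apply (measurable_step k) measurableSet_Ioi, ← hPdef]
  refine (measureReal_mono h1).trans ?_
  refine (measureReal_iUnion_fintype_le _).trans ?_
  refine (Finset.sum_le_sum fun i _ => h4 i).trans ?_
  rw [Finset.sum_const, Finset.card_univ, Fintype.card_fin, nsmul_eq_mul]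

theorem dirac_nn : (Measure.dirac (0 : ℝ)) (Set.Iio 0) = 0 := by
  rw [Measure.dirac_apply' _ measurableSet_Iio]
  simp

theorem dirac_pos {L : ℝ} (hL : 0 ≤ L) : (Measure.dirac (0 : ℝ)) (Set.Ioi L) = 0 := by
  rw [Measure.dirac_apply' _ measurableSet_Ioi]
  simp [hL]

theorem law_prob {μ : Measure ℝ} [IsProbabilityMeasure μ] (n : ℕ) :
    ∀ (T : RT) (s : Bool), IsProbabilityMeasure (lawU μ n T s) := by
  induction n with
  | zero =>
    rintro ⟨k, c⟩ s
    cases s
    · show IsProbabilityMeasure (Measure.dirac (0 : ℝ))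
      infer_instance
    · show IsProbabilityMeasure (stepLaw μ k fun _ => Measure.dirac 0)
      exact step_prob fun _ => inferInstance
  | succ n ih =>
    rintro ⟨k, c⟩ s
    show IsProbabilityMeasure (stepLaw μ k fun i => lawU μ n (c i) (!s))
    exact step_prob fun i => ih (c i) (!s)

theorem law_nn (μ : Measure ℝ) (n : ℕ) (T : RT) (s : Bool) : lawU μ n T s (Set.Iio 0) = 0 := by
  obtain ⟨k, c⟩ := T
  cases n with
  | zero =>
    cases s
    · show (Measure.dirac (0 : ℝ)) (Set.Iio 0) = 0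
      exact dirac_nn
    · show (stepLaw μ k fun _ => Measure.dirac 0) (Set.Iio 0) = 0
      exact step_nn _ _ _
  | succ n =>
    show (stepLaw μ k fun i => lawU μ n (c i) (!s)) (Set.Iio 0) = 0
    exact step_nn _ _ _

theorem law_leaf (μ : Measure ℝ) (n : ℕ) (T : RT) (s : Bool) (hT : IsLeaf T) :
    lawU μ n T s (Set.Ioi 0) = 0 := by
  obtain ⟨k, c⟩ := T
  have hk : k = 0 := hT
  subst hk
  cases n with
  | zero =>
    cases s
    · show (Measure.dirac (0 : ℝ)) (Set.Ioi 0) = 0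
      exact dirac_pos le_rfl
    · show (stepLaw μ 0 fun _ => Measure.dirac 0) (Set.Ioi 0) = 0
      exact step_leaf _ _
  | succ n =>
    show (stepLaw μ 0 fun i => lawU μ n (c i) (!s)) (Set.Ioi 0) = 0
    exact step_leaf _ _

theorem t_LPU : S_LPU := by
  intro μ a hG n T
  have hμ : IsProbabilityMeasure μ := ⟨hG.prob⟩
  refine ⟨law_prob n T, law_nn μ n T, fun s => ?_⟩
  obtain ⟨k, c⟩ := T
  show (stepLaw μ k fun i => lawU μ n (c i) (!s)) (Set.Iio (lo a (RT.node k c))) = 0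
  by_cases h : ∃ i, IsLeaf (c i)
  · have e : lo a (RT.node k c) = a := if_pos h
    rw [e]
    obtain ⟨i, hi⟩ := h
    exact step_lo (fun i => law_prob n (c i) (!s)) hG.supp (i := i) (law_leaf μ n (c i) (!s) hi)
  · have e : lo a (RT.node k c) = 0 := if_neg h
    rw [e]
    exact step_nn _ _ _

theorem t_TLU : S_LPU → S_TLU := by
  intro hLPU μ a hG d n T hT L s hL
  have hμ : IsProbabilityMeasure μ := ⟨hG.prob⟩
  obtain ⟨k, c⟩ := T
  have hk : k ≤ d := hT.1
  have hkd : (k : ℝ) * μ.real (Set.Ioi L) ≤ d * μ.real (Set.Ioi L) :=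
    mul_le_mul_of_nonneg_right (by exact_mod_cast hk) measureReal_nonneg
  cases n with
  | zero =>
    cases s
    · show (Measure.dirac (0 : ℝ)).real (Set.Ioi L) ≤ d * μ.real (Set.Ioi L)
      rw [measureReal_def, dirac_pos hL, ENNReal.toReal_zero]
      exact mul_nonneg (Nat.cast_nonneg _) measureReal_nonneg
    · show (stepLaw μ k fun _ => Measure.dirac 0).real (Set.Ioi L) ≤ d * μ.real (Set.Ioi L)
      exact (step_tail (fun _ => inferInstance) (fun _ => dirac_nn) hL).trans hkd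
  | succ n =>
    show (stepLaw μ k fun i => lawU μ n (c i) (!s)).real (Set.Ioi L) ≤ d * μ.real (Set.Ioi L)
    exact (step_tail (fun i => (hLPU μ a hG n (c i)).1 (!s))
      (fun i => (hLPU μ a hG n (c i)).2.1 (!s)) hL).trans hkd

/-- modulus of continuity -/
theorem part1 (μ : Measure ℝ) [IsProbabilityMeasure μ] (hat : ∀ x, μ {x} = 0) (ε : ℝ)
    (hε : 0 < ε) : ∃ δ : ℝ, 0 < δ ∧ ∀ z, μ.real (Set.Icc z (z + δ)) ≤ ε := by
  obtain ⟨K, -, hK, hKm⟩ := (MeasurableSet.univ (α := ℝ)).exists_isCompact_sdiff_lt (μ := μ)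
    (measure_ne_top μ _) (ENNReal.ofReal_pos.mpr hε).ne'
  have hU : ∀ x : ℝ, ∃ U : Set ℝ, {x} ⊆ U ∧ IsOpen U ∧ μ U < ENNReal.ofReal ε := by
    intro x
    obtain ⟨U, hU1, hU2, hU3⟩ := Set.exists_isOpen_lt_of_lt (μ := μ) ({x} : Set ℝ)
      (ENNReal.ofReal ε) (by rw [hat x]; exact ENNReal.ofReal_pos.mpr hε)
    exact ⟨U, hU1, hU2, hU3⟩
  choose U hxU hUo hUm using hU
  obtain ⟨δ, hδ, hL⟩ := lebesgue_number_lemma_of_metric (s := K) (c := U) hK hUo
    (fun x _ => Set.mem_iUnion.mpr ⟨x, hxU x rfl⟩)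
  refine ⟨δ / 2, by positivity, ?_⟩
  intro z
  have hm : μ (Set.Icc z (z + δ / 2)) ≤ ENNReal.ofReal ε := by
    by_cases hz : ∃ x, x ∈ Set.Icc z (z + δ / 2) ∧ x ∈ K
    · obtain ⟨x, hx1, hx2⟩ := hz
      obtain ⟨i, hi⟩ := hL x hx2
      have hsub : Set.Icc z (z + δ / 2) ⊆ U i := by
        intro t ht
        refine hi ?_
        rw [Metric.mem_ball, Real.dist_eq, abs_lt]
        obtain ⟨h1, h2⟩ := ht
        obtain ⟨h3, h4⟩ := hx1
        constructor <;> linarith
      exact le_trans (measure_mono hsub) (hUm i).le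
    · have hsub : Set.Icc z (z + δ / 2) ⊆ Set.univ \ K := by
        intro t ht
        exact ⟨Set.mem_univ _, fun ht2 => hz ⟨t, ht, ht2⟩⟩
      exact (measure_mono hsub).trans hKm.le
  have h2 := ENNReal.toReal_mono ENNReal.ofReal_ne_top hm
  rw [ENNReal.toReal_ofReal hε.le] at h2
  exact h2

/-- the complement of the support is a null set -/
theorem part2 (μ : Measure ℝ) : μ (Spt μ)ᶜ = 0 := by
  refine measure_null_of_locally_null _ fun x hx => ?_
  have hx' : ¬ ∀ δ : ℝ, 0 < δ → 0 < μ (Set.Icc (x - δ) (x + δ)) := hx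
  push Not at hx'
  obtain ⟨δ, hδ, h0⟩ := hx'
  refine ⟨Set.Icc (x - δ) (x + δ), mem_nhdsWithin_of_mem_nhds (Icc_mem_nhds ?_ ?_), ?_⟩
  · linarith
  · linarith
  · exact nonpos_iff_eq_zero.1 h0

/-- a set of positive measure contains points of the support -/
theorem exists_spt {μ : Measure ℝ} {A : Set ℝ} (hA : 0 < μ A) : ∃ w, w ∈ Spt μ ∧ w ∈ A := by
  by_contra hcon
  push Not at hcon
  have hsub : A ⊆ (Spt μ)ᶜ := fun w hw hs => hcon w hs hw
  exact hA.ne' (measure_mono_null hsub (part2 μ))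

theorem t_UNU : S_UNU := by
  intro μ a hG
  have hμ : IsProbabilityMeasure μ := ⟨hG.prob⟩
  have h3 : ∀ x : ℝ, ∃ w, w ∈ Spt μ ∧ x ≤ w := by
    intro x
    obtain ⟨w, hw, hx⟩ := exists_spt (hG.unb x)
    exact ⟨w, hw, le_of_lt hx⟩
  refine ⟨fun ε hε => part1 μ hG.atoms ε hε, part2 μ, h3, fun σ hσ x => ?_⟩
  obtain ⟨w, hw, hxw⟩ := h3 (x + σ)
  have h4 : 0 < μ (Set.Icc (w - σ / 2) (w + σ / 2)) := hw _ (half_pos hσ)
  have h5 : 0 < μ (Set.Icc (w - σ / 2) (w + σ / 2) \ {w}) := by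
    rw [measure_sdiff_null (hG.atoms w)]
    exact h4
  obtain ⟨w', hw', ⟨h6, h7⟩, h8⟩ := exists_spt h5
  have h9 : w' ≠ w := h8
  rcases lt_or_gt_of_ne h9 with h | h
  · exact ⟨w, w', hw, hw', by linarith, h, by linarith⟩
  · exact ⟨w', w, hw', hw, by linarith, h, by linarith⟩

end Pool.Agent.H675.MU.LPU
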